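import Pool.Agent.Helper62.LH.StG

/-!
# Project LH: module RGA (a metric geodesic is Lipschitz with constant speed almost everywhere)
-/

set_option autoImplicit false

open Set Filter Topology MeasureTheory
open scoped ContDiff ENNReal

noncomputable section

namespace Pool.Agent.Helper79.LH

open Helper62.LH

theorem sq_nr_RGA {n : ℕ} {g : E n → Bl n} (hg : IsMet g) (x v : E n) :
    nr g x v ^ 2 = g x v v := by
  unfold nr
  rw [Real.sq_sqrt]
  by_cases h : v = 0
  · rw [h]; simp
  · exact (hg.pos x v h).le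

theorem cont2_RGA {n : ℕ} {g : E n → Bl n} (hg : IsMet g) :
    Continuous (fun q : E n × E n => g q.1 q.2 q.2) := by
  have h1 : Continuous g := hg.smooth.continuous
  exact ((h1.comp continuous_fst).clm_apply continuous_snd).clm_apply continuous_snd

theorem nr_smul_RGA {n : ℕ} (g : E n → Bl n) (x v : E n) (a : ℝ) :
    nr g x (a • v) = |a| * nr g x v := by
  unfold nr
  have : g x (a • v) (a • v) = a ^ 2 * g x v v := by
    rw [map_smul, map_smul, FunLike.coe_smul, Pi.smul_apply, smul_eq_mul, smul_eq_mul]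
    ring
  rw [this, Real.sqrt_mul (sq_nonneg a), Real.sqrt_sq_eq_abs]

theorem nr_lower_RGA (hCmp : StCmp) {n : ℕ} {g : E n → Bl n} (hg : IsMet g) (x : E n) :
    ∃ a : ℝ, 0 < a ∧ ∀ v, a * ‖v‖ ≤ nr g x v := by
  obtain ⟨m, M, hm, hM, h⟩ := hCmp n g hg {x} isCompact_singleton
  refine ⟨√m, Real.sqrt_pos.2 hm, fun v => ?_⟩
  have h1 := (h x rfl v).1
  unfold nr
  apply Real.le_sqrt_of_sq_le
  rw [mul_pow, Real.sq_sqrt hm.le]
  exact h1

theorem hRga (hCmp : StCmp) (hMet : StMet) (hLoc : StLoc) (hDlc : StDlc) (hLl : StLl) :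
    StRga := by
  intro n g hg c x y hc
  obtain ⟨hc0, hc1, hcd⟩ := hc
  have hd0 := (hMet n g hg).2.2.1
  set L : ℝ := dg g x y with hL
  have hL0 : 0 ≤ L := hd0 x y
  -- continuity
  have hcont : ContinuousOn c (Icc 0 1) := by
    intro s hs
    rw [Metric.continuousWithinAt_iff]
    intro r hr
    obtain ⟨δ, hδ, h⟩ := (hDlc n g hg).1 (c s) r hr
    refine ⟨δ / (L + 1), by positivity, fun {t} ht hdist => ?_⟩
    rw [dist_eq_norm]
    apply h
    rw [hcd s hs t ht]
    rw [Real.dist_eq, lt_div_iff₀ (by positivity)] at hdist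
    rw [abs_sub_comm]
    have := abs_nonneg (t - s)
    nlinarith
  -- Lipschitz
  obtain ⟨K, hK⟩ : ∃ K : NNReal, LipschitzOnWith K c (Icc 0 1) := by
    apply LocallyLipschitzOn.exists_lipschitzOnWith_of_compact isCompact_Icc
    intro s₀ hs₀
    obtain ⟨r, hr, _, h2⟩ := hLoc n g hg (c s₀) (1 / 2) (by norm_num) (by norm_num)
    obtain ⟨a, ha, h3⟩ := nr_lower_RGA hCmp hg (c s₀)
    refine ⟨Real.toNNReal (2 / a * L), Icc 0 1 ∩ c ⁻¹' Metric.ball (c s₀) r,
      inter_mem self_mem_nhdsWithin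
        ((hcont s₀ hs₀).preimage_mem_nhdsWithin (Metric.ball_mem_nhds _ hr)), ?_⟩
    apply LipschitzOnWith.of_dist_le_mul
    rintro s ⟨hs, hs'⟩ t ⟨ht, ht'⟩
    have h4 := (h2 (c t) ht' (c s) hs').1
    have h5 := h3 (c s - c t)
    rw [hcd t ht s hs] at h4
    rw [dist_eq_norm, Real.dist_eq, Real.coe_toNNReal _ (by positivity), abs_sub_comm s t]
    have h6 : a * ‖c s - c t‖ ≤ 2 * (|t - s| * L) := by linarith
    rw [div_mul_eq_mul_div, div_mul_eq_mul_div, le_div_iff₀ ha]
    linarith
  -- the extension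
  set pr : ℝ → ℝ := fun t => (projIcc (0 : ℝ) 1 zero_le_one t : ℝ) with hpr
  have hprm : ∀ t, pr t ∈ Icc (0 : ℝ) 1 := fun t => (projIcc (0 : ℝ) 1 zero_le_one t).2
  have hpre : ∀ t ∈ Icc (0 : ℝ) 1, pr t = t := fun t ht => by
    rw [hpr]
    simp only [projIcc_of_mem zero_le_one ht]
  set γ : ℝ → E n := fun t => c (pr t) with hγ
  have hγlip : LipschitzWith K γ := by
    apply LipschitzWith.of_dist_le_mul
    intro s t
    refine (hK.dist_le_mul _ (hprm s) _ (hprm t)).trans ?_
    apply mul_le_mul_of_nonneg_left _ K.2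
    have h := (LipschitzWith.projIcc (zero_le_one : (0 : ℝ) ≤ 1)).dist_le_mul s t
    rw [NNReal.coe_one, one_mul] at h
    exact h
  have hγc : ∀ t ∈ Icc (0 : ℝ) 1, γ t = c t := fun t ht => by
    show c (pr t) = c t
    rw [hpre t ht]
  refine ⟨γ, K, hγlip, hγc, ?_⟩
  have hdiff : ∀ᵐ t, DifferentiableAt ℝ γ t := hγlip.ae_differentiableAt
  -- upper bound of the speed
  have hup : ∀ t ∈ Ioo (0 : ℝ) 1, DifferentiableAt ℝ γ t → nr g (γ t) (deriv γ t) ≤ L := by
    intro t ht hdt
    have key : ∀ ε : ℝ, 0 < ε → ε < 1 → (1 - ε) * nr g (γ t) (deriv γ t) ≤ L := by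
      intro ε hε hε1
      obtain ⟨r, hr, _, h2⟩ := hLoc n g hg (γ t) ε hε hε1
      have hslope := hdt.hasDerivAt.tendsto_slope_zero
      have hcv : Continuous (fun v => nr g (γ t) v) := by
        unfold nr
        exact Real.continuous_sqrt.comp
          ((cont2_RGA hg).comp (continuous_const.prodMk continuous_id))
      have h3 : Tendsto (fun h : ℝ => (1 - ε) * nr g (γ t) (h⁻¹ • (γ (t + h) - γ t))) (𝓝[≠] 0)
          (𝓝 ((1 - ε) * nr g (γ t) (deriv γ t))) :=
        ((hcv.tendsto _).comp hslope).const_mul _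
      apply le_of_tendsto h3
      have hγcont : ContinuousAt (fun h : ℝ => γ (t + h)) 0 := by
        apply Continuous.continuousAt
        exact hγlip.continuous.comp (continuous_const.add continuous_id)
      have h4 : ∀ᶠ h in 𝓝 (0 : ℝ), γ (t + h) ∈ Metric.ball (γ t) r := by
        apply hγcont
        simp only [add_zero]
        exact Metric.ball_mem_nhds _ hr
      have h5 : ∀ᶠ h in 𝓝 (0 : ℝ), t + h ∈ Icc (0 : ℝ) 1 := by
        have h6 : ContinuousAt (fun h : ℝ => t + h) 0 := by fun_prop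
        apply h6
        simp only [add_zero]
        exact Icc_mem_nhds ht.1 ht.2
      filter_upwards [h4.filter_mono nhdsWithin_le_nhds, h5.filter_mono nhdsWithin_le_nhds,
        self_mem_nhdsWithin] with h hh1 hh2 hh3
      have hh0 : h ≠ 0 := hh3
      have ht' : t ∈ Icc (0 : ℝ) 1 := Ioo_subset_Icc_self ht
      have h6 := (h2 (γ t) (Metric.mem_ball_self hr) (γ (t + h)) hh1).1
      rw [hγc t ht', hγc (t + h) hh2, hcd t ht' (t + h) hh2] at h6
      rw [nr_smul_RGA, hγc t ht', hγc (t + h) hh2]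
      have h7 : |t - (t + h)| = |h| := by
        rw [abs_sub_comm]; congr 1; ring
      rw [h7] at h6
      have h8 : 0 < |h| := abs_pos.2 hh0
      rw [abs_inv, mul_left_comm, inv_mul_le_iff₀ h8]
      exact h6
    have h0 : 0 ≤ nr g (γ t) (deriv γ t) := Real.sqrt_nonneg _
    by_contra hcon
    push Not at hcon
    set A := nr g (γ t) (deriv γ t) with hA
    have hA0 : 0 < A := lt_of_le_of_lt hL0 hcon
    have h9 := key ((A - L) / (2 * A)) (by
      apply div_pos <;> linarith) (by
      rw [div_lt_one (by linarith)]; linarith)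
    have h10 : (1 - (A - L) / (2 * A)) * A = (A + L) / 2 := by
      field_simp; ring
    rw [h10] at h9
    linarith
  -- measurability and integrability
  set N : ℝ → ℝ := fun t => nr g (γ t) (deriv γ t) with hN
  have hNm : Measurable N := by
    have h1 : Measurable (fun q : E n × E n => √(g q.1 q.2 q.2)) :=
      (Real.continuous_sqrt.comp (cont2_RGA hg)).measurable
    exact h1.comp (hγlip.continuous.measurable.prodMk (measurable_deriv γ))
  have hN0 : ∀ t, 0 ≤ N t := fun t => Real.sqrt_nonneg _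
  have hIoo : ∀ᵐ t ∂(volume.restrict (Icc (0 : ℝ) 1)), t ∈ Ioo (0 : ℝ) 1 := by
    rw [← restrict_Ioo_eq_restrict_Icc]
    exact ae_restrict_mem measurableSet_Ioo
  have hNle : ∀ᵐ t ∂(volume.restrict (Icc (0 : ℝ) 1)), N t ≤ L := by
    filter_upwards [hIoo, ae_restrict_of_ae hdiff] with t ht hdt
    exact hup t ht hdt
  have hNint : Integrable N (volume.restrict (Icc (0 : ℝ) 1)) := by
    apply Integrable.mono' (g := fun _ => L) (integrable_const L) hNm.aestronglyMeasurable
    filter_upwards [hNle] with t ht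
    rw [Real.norm_eq_abs, abs_of_nonneg (hN0 t)]
    exact ht
  have hlow : L ≤ ∫ t in Icc (0 : ℝ) 1, N t := by
    have h1 := hLl n g hg γ K hγlip
    rw [intervalIntegral.integral_of_le zero_le_one, ← integral_Icc_eq_integral_Ioc,
      hγc 0 (by simp), hγc 1 (by simp), hc0, hc1] at h1
    exact h1
  have hconst : ∫ t in Icc (0 : ℝ) 1, (L - N t) = L - ∫ t in Icc (0 : ℝ) 1, N t := by
    rw [integral_sub (integrable_const L) hNint]
    simp
  have hnn : 0 ≤ᵐ[volume.restrict (Icc (0 : ℝ) 1)] fun t => L - N t := by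
    filter_upwards [hNle] with t ht
    simpa using ht
  have hzero : ∫ t in Icc (0 : ℝ) 1, (L - N t) = 0 := by
    apply le_antisymm
    · rw [hconst]; linarith
    · exact integral_nonneg_of_ae hnn
  have hae := (integral_eq_zero_iff_of_nonneg_ae hnn ((integrable_const L).sub hNint)).1 hzero
  filter_upwards [hae, ae_restrict_of_ae hdiff] with t ht hdt
  refine ⟨hdt, ?_⟩
  have h1 : N t = L := by
    have : L - N t = 0 := ht
    linarith
  rw [← sq_nr_RGA hg]
  show N t ^ 2 = L ^ 2
  rw [h1]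

end Pool.Agent.Helper79.LH
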