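import Pool.Agent.Helper62.LH.StV

/-!
# Project LH: module VA (local volume estimate)
-/

set_option autoImplicit false

open Set Filter Topology MeasureTheory
open scoped ContDiff ENNReal

noncomputable section

namespace Pool.Agent.Helper79.LH

open Helper62.LH

theorem vol_cont_VA {n : ℕ} {g : E n → Bl n} (hg : IsMet g) : Continuous (fun x => vol g x) := by
  unfold vol
  apply Real.continuous_sqrt.comp
  apply Continuous.matrix_det
  apply continuous_matrix
  intro i j
  have h1 : Continuous g := hg.smooth.continuous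
  exact (h1.clm_apply continuous_const).clm_apply continuous_const

theorem vol_pos_VA (hLin : StLin) {n : ℕ} {g : E n → Bl n} (hg : IsMet g) (x : E n) :
    0 < vol g x := by
  obtain ⟨A, _, hA⟩ := hLin n g hg x
  have h1 := hA (Metric.ball 0 1)
  have h2 : IsOpen (A '' Metric.ball (0 : E n) 1) := A.toHomeomorph.isOpenMap _ Metric.isOpen_ball
  have h3 : (A '' Metric.ball (0 : E n) 1).Nonempty := ⟨A 0, 0, by simp, rfl⟩
  have h4 : 0 < volume (A '' Metric.ball (0 : E n) 1) := h2.measure_pos volume h3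
  rw [h1] at h4
  by_contra hcon
  push Not at hcon
  rw [ENNReal.ofReal_of_nonpos hcon, zero_mul] at h4
  exact lt_irrefl _ h4

/-- `vol` is nearly constant on small balls -/
theorem vol_near_VA (hLin : StLin) {n : ℕ} {g : E n → Bl n} (hg : IsMet g) (a : E n) (η : ℝ)
    (hη : 0 < η) : ∃ r > 0, ∀ x ∈ Metric.ball a r, (1 - η) * vol g a ≤ vol g x ∧
      vol g x ≤ (1 + η) * vol g a := by
  have hpos := vol_pos_VA hLin hg a
  have hc := (vol_cont_VA hg).continuousAt (x := a)
  rw [Metric.continuousAt_iff] at hc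
  obtain ⟨r, hr, h⟩ := hc (η * vol g a) (by positivity)
  refine ⟨r, hr, fun x hx => ?_⟩
  have h1 := h hx
  rw [Real.dist_eq, abs_lt] at h1
  constructor <;> nlinarith [h1.1, h1.2]

theorem mg_le_VA {n : ℕ} (g : E n → Bl n) (T : Set (E n)) (b : E n) (r c : ℝ)
    (hT : T ⊆ Metric.ball b r) (h : ∀ x ∈ Metric.ball b r, vol g x ≤ c) :
    mg g T ≤ ENNReal.ofReal c * volume T := by
  unfold mg
  rw [withDensity_apply']
  have hae : ∀ᵐ x ∂(volume.restrict T), x ∈ Metric.ball b r :=
    ae_mono (Measure.restrict_mono hT le_rfl) (ae_restrict_mem measurableSet_ball)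
  calc ∫⁻ x in T, ENNReal.ofReal (vol g x) ≤ ∫⁻ x in T, ENNReal.ofReal c := by
        apply lintegral_mono_ae
        filter_upwards [hae] with x hx
        exact ENNReal.ofReal_le_ofReal (h x hx)
    _ = ENNReal.ofReal c * volume T := by
        rw [lintegral_const, Measure.restrict_apply_univ]

theorem le_mg_VA {n : ℕ} (g : E n → Bl n) (T : Set (E n)) (b : E n) (r c : ℝ)
    (hT : T ⊆ Metric.ball b r) (h : ∀ x ∈ Metric.ball b r, c ≤ vol g x) :
    ENNReal.ofReal c * volume T ≤ mg g T := by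
  unfold mg
  rw [withDensity_apply']
  have hae : ∀ᵐ x ∂(volume.restrict T), x ∈ Metric.ball b r :=
    ae_mono (Measure.restrict_mono hT le_rfl) (ae_restrict_mem measurableSet_ball)
  calc ENNReal.ofReal c * volume T = ∫⁻ x in T, ENNReal.ofReal c := by
        rw [lintegral_const, Measure.restrict_apply_univ]
    _ ≤ ∫⁻ x in T, ENNReal.ofReal (vol g x) := by
        apply lintegral_mono_ae
        filter_upwards [hae] with x hx
        exact ENNReal.ofReal_le_ofReal (h x hx)

theorem hVa (hLoc : StLoc) (hLip : StLip) (hLin : StLin) : StVa := by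
  intro n g hg a b η hη hη1
  obtain ⟨ra, hra, _, hla⟩ := hLoc n g hg a η hη hη1
  obtain ⟨rb, hrb, _, hlb⟩ := hLoc n g hg b η hη hη1
  obtain ⟨ra', hra', hva⟩ := vol_near_VA hLin hg a η hη
  obtain ⟨rb', hrb', hvb⟩ := vol_near_VA hLin hg b η hη
  obtain ⟨A, hA1, hA2⟩ := hLin n g hg a
  obtain ⟨B, hB1, hB2⟩ := hLin n g hg b
  have hposa := vol_pos_VA hLin hg a
  have hposb := vol_pos_VA hLin hg b
  have h1η : 0 < 1 - η := by linarith
  set r : ℝ := min (min ra rb) (min ra' rb') with hr
  have hr0 : 0 < r := lt_min (lt_min hra hrb) (lt_min hra' hrb')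
  have hr1 : r ≤ ra := (min_le_left _ _).trans (min_le_left _ _)
  have hr2 : r ≤ rb := (min_le_left _ _).trans (min_le_right _ _)
  have hr3 : r ≤ ra' := (min_le_right _ _).trans (min_le_left _ _)
  have hr4 : r ≤ rb' := (min_le_right _ _).trans (min_le_right _ _)
  refine ⟨r, hr0, fun S ψ Λ hΛ hS hψS hLips => ?_⟩
  set L : NNReal := Real.toNNReal (Λ * (1 + η) / (1 - η)) with hL
  have hL0 : 0 ≤ Λ * (1 + η) / (1 - η) := by positivity
  have hLip1 : LipschitzOnWith L (fun w => B (ψ (A.symm w))) (A '' S) := by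
    apply LipschitzOnWith.of_dist_le_mul
    rintro _ ⟨z, hz, rfl⟩ _ ⟨z', hz', rfl⟩
    simp only [ContinuousLinearEquiv.symm_apply_apply]
    rw [dist_eq_norm, dist_eq_norm, ← map_sub, ← map_sub, hB1, hA1, hL,
      Real.coe_toNNReal _ hL0]
    have e1 := (hlb (ψ z') (Metric.ball_subset_ball hr2 (hψS ⟨z', hz', rfl⟩)) (ψ z)
      (Metric.ball_subset_ball hr2 (hψS ⟨z, hz, rfl⟩))).1
    have e2 := (hla z' (Metric.ball_subset_ball hr1 (hS hz')) z
      (Metric.ball_subset_ball hr1 (hS hz))).2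
    have e3 := hLips z' hz' z hz
    have e4 : (1 - η) * nr g b (ψ z - ψ z') ≤ Λ * ((1 + η) * nr g a (z - z')) :=
      e1.trans (e3.trans (mul_le_mul_of_nonneg_left e2 hΛ))
    rw [div_mul_eq_mul_div, le_div_iff₀ h1η]
    linarith
  have h1 := hLip n (A '' S) (fun w => B (ψ (A.symm w))) L hLip1
  have himg : (fun w => B (ψ (A.symm w))) '' (A '' S) = B '' (ψ '' S) := by
    rw [image_image, image_image]
    simp only [ContinuousLinearEquiv.symm_apply_apply]
  rw [himg, hA2, hB2] at h1
  have h2 : mg g (ψ '' S) ≤ ENNReal.ofReal ((1 + η) * vol g b) * volume (ψ '' S) :=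
    mg_le_VA g (ψ '' S) b r _ hψS
      (fun x hx => (hvb x (Metric.ball_subset_ball hr4 hx)).2)
  have h3 : ENNReal.ofReal ((1 - η) * vol g a) * volume S ≤ mg g S :=
    le_mg_VA g S a r _ hS (fun x hx => (hva x (Metric.ball_subset_ball hr3 hx)).1)
  have h4 : ENNReal.ofReal (vol g a) * volume S ≤ ENNReal.ofReal (1 / (1 - η)) * mg g S := by
    have e : ENNReal.ofReal (vol g a) = ENNReal.ofReal (1 / (1 - η)) *
        ENNReal.ofReal ((1 - η) * vol g a) := by
      rw [← ENNReal.ofReal_mul (by positivity)]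
      congr 1
      field_simp
    rw [e, mul_assoc]
    gcongr
  have hLc : (L : ℝ≥0∞) ^ n = ENNReal.ofReal ((Λ * (1 + η) / (1 - η)) ^ n) := by
    rw [ENNReal.ofReal_pow hL0]
    rfl
  calc mg g (ψ '' S) ≤ ENNReal.ofReal ((1 + η) * vol g b) * volume (ψ '' S) := h2
    _ = ENNReal.ofReal (1 + η) * (ENNReal.ofReal (vol g b) * volume (ψ '' S)) := by
        rw [ENNReal.ofReal_mul (by positivity), mul_assoc]
    _ ≤ ENNReal.ofReal (1 + η) * ((L : ℝ≥0∞) ^ n * (ENNReal.ofReal (vol g a) * volume S)) := by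
        gcongr
    _ ≤ ENNReal.ofReal (1 + η) * ((L : ℝ≥0∞) ^ n *
        (ENNReal.ofReal (1 / (1 - η)) * mg g S)) := by
        gcongr
    _ = ENNReal.ofReal (((1 + η) / (1 - η)) ^ (n + 1) * Λ ^ n) * mg g S := by
        rw [hLc, ← mul_assoc, ← mul_assoc, ← ENNReal.ofReal_mul (by positivity),
          ← ENNReal.ofReal_mul (by positivity)]
        congr 2
        rw [mul_div_assoc, mul_pow, pow_succ]
        ring

end Pool.Agent.Helper79.LH
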